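import Pool.Agent.H18.N6F.Targets

set_option autoImplicit false

open Polynomial NumberField IsDedekindDomain Matrix Pool.Agent.H32.QC Pool.Agent.H34.N6
open Pool.Agent.H18.N6F

namespace Pool.Agent.H61.N6F

theorem ti_one {F : Type*} [Field F] {n : ℕ} (A : Matrix (Fin n) (Fin n) F) :
    TI A 1 ↔ ∃ v : Fin n → F, v ≠ 0 ∧ v ⬝ᵥ (A *ᵥ v) = 0 := by
  constructor
  · rintro ⟨b, hb, h⟩
    exact ⟨b 0, hb.ne_zero 0, h 0 0⟩
  · rintro ⟨v, hv, h⟩
    refine ⟨fun _ => v, ?_, fun _ _ => h⟩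
    rw [linearIndependent_unique_iff]
    exact hv

theorem expand {F : Type*} [Field F] (M : Matrix (Fin 3) (Fin 3) F) (hM : M.IsSymm)
    (v : Fin 3 → F) :
    M 0 0 * (M 0 0 * M 1 1 - M 0 1 ^ 2) * (v ⬝ᵥ (M *ᵥ v)) =
      (M 0 0 * M 1 1 - M 0 1 ^ 2) * (M 0 0 * v 0 + M 0 1 * v 1 + M 0 2 * v 2) ^ 2 +
      ((M 0 0 * M 1 1 - M 0 1 ^ 2) * v 1 + (M 0 0 * M 1 2 - M 0 1 * M 0 2) * v 2) ^ 2 +
      M 0 0 * M.det * v 2 ^ 2 := by
  have h10 : M 1 0 = M 0 1 := hM.apply 0 1
  have h20 : M 2 0 = M 0 2 := hM.apply 0 2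
  have h21 : M 2 1 = M 1 2 := hM.apply 1 2
  simp only [Matrix.det_fin_three, dotProduct, Matrix.mulVec, Fin.sum_univ_three, h10, h20, h21]
  ring

theorem pf_CNC : T_CNC := by
  intro F _ M hM hdet hA hm
  set m : F := M 0 0 * M 1 1 - M 0 1 ^ 2 with hmdef
  rw [ti_one]
  constructor
  · rintro ⟨v, hv, h⟩
    have hE := expand M hM v
    rw [h, mul_zero] at hE
    rw [← hmdef] at hE
    refine ⟨M 0 0 * v 0 + M 0 1 * v 1 + M 0 2 * v 2, v 2,
      m * v 1 + (M 0 0 * M 1 2 - M 0 1 * M 0 2) * v 2, ?_, ?_⟩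
    · by_contra hcon
      push Not at hcon
      obtain ⟨h0, h2, h1⟩ := hcon
      rw [h2, mul_zero, add_zero] at h1 h0
      have h1' : v 1 = 0 := by
        rcases mul_eq_zero.mp h1 with h | h
        · exact absurd h hm
        · exact h
      rw [h1', mul_zero, add_zero] at h0
      have h0' : v 0 = 0 := by
        rcases mul_eq_zero.mp h0 with h | h
        · exact absurd h hA
        · exact h
      apply hv
      funext i
      fin_cases i
      · exact h0'
      · exact h1'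
      · exact h2
    · linear_combination -hE
  · rintro ⟨X, z, Y, hne, h⟩
    set y : F := (Y - (M 0 0 * M 1 2 - M 0 1 * M 0 2) * z) / m with hy
    set x : F := (X - M 0 1 * y - M 0 2 * z) / M 0 0 with hx
    have hy' : m * y + (M 0 0 * M 1 2 - M 0 1 * M 0 2) * z = Y := by
      rw [hy]; field_simp; ring
    have hx' : M 0 0 * x + M 0 1 * y + M 0 2 * z = X := by
      rw [hx]; field_simp; ring
    refine ⟨![x, y, z], ?_, ?_⟩
    · intro h0
      have e0 : x = 0 := by simpa using congrFun h0 0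
      have e1 : y = 0 := by simpa using congrFun h0 1
      have e2 : z = 0 := by simpa using congrFun h0 2
      rw [e1, e2] at hy'
      rw [e0, e1, e2] at hx'
      rcases hne with h | h | h
      · exact h (by rw [← hx']; ring)
      · exact h e2
      · exact h (by rw [← hy']; ring)
    · have hE := expand M hM ![x, y, z]
      rw [← hmdef] at hE
      simp only [Matrix.cons_val_zero, Matrix.cons_val_one, Matrix.cons_val] at hE
      rw [hx', hy'] at hE
      have h0 : M 0 0 * m * ((![x, y, z] : Fin 3 → F) ⬝ᵥ (M *ᵥ ![x, y, z])) = 0 := by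
        rw [hE]
        linear_combination h
      exact (mul_eq_zero.mp h0).resolve_left (mul_ne_zero hA hm)

end Pool.Agent.H61.N6F
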